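import Mathlib

/-!
Category arguments in the closed sets `R h` of pairs of points of `2^(ℕ × ℕ)`.
-/

set_option autoImplicit false

namespace Pool.Agent.Helper62_Omega

open Set Filter Topology

/-- The Cantor space `2^(ℕ × ℕ)`. -/
abbrev P := ℕ × ℕ → Bool

/-- Codes for finite and cofinite subsets of `ℕ × ℕ`. -/
abbrev E := Finset (ℕ × ℕ) × Bool

/-- Translation of a point by the finite or cofinite set coded by `e`. -/
def act (e : E) (x : P) : P := fun i => xor (x i) (xor e.2 (decide (i ∈ e.1)))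

/-- Composition of codes. -/
def comp (e e' : E) : E := (symmDiff e.1 e'.1, xor e.2 e'.2)

lemma act_act (e e' : E) (x : P) : act e (act e' x) = act (comp e e') x := by
  funext i
  simp only [act, comp, Finset.mem_symmDiff]
  by_cases h : i ∈ e.1 <;> by_cases h' : i ∈ e'.1 <;>
    cases hx : x i <;> cases he : e.2 <;> cases he' : e'.2 <;> simp [h, h']

lemma act_self (e : E) (x : P) : act e (act e x) = x := by
  funext i
  simp only [act]
  by_cases h : i ∈ e.1 <;> cases hx : x i <;> cases he : e.2 <;> simp [h]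

/-- the identity code -/
def one : E := (∅, false)

lemma act_one (x : P) : act one x = x := by
  funext i
  simp [act, one]

lemma continuous_act (e : E) : Continuous (act e) := by
  apply continuous_pi
  intro i
  exact (continuous_of_discreteTopology (f := fun b : Bool =>
    xor b (xor e.2 (decide (i ∈ e.1))))).comp (continuous_apply i)

/-- `act e` as a homeomorphism -/
def actHomeo (e : E) : P ≃ₜ P where
  toFun := act e
  invFun := act e
  left_inv := act_self e
  right_inv := act_self e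
  continuous_toFun := continuous_act e
  continuous_invFun := continuous_act e

/-- Basic open sets. -/
def cyl (D : Finset (ℕ × ℕ)) (x : P) : Set P := {y | ∀ i ∈ D, y i = x i}

lemma mem_cyl_self (D : Finset (ℕ × ℕ)) (x : P) : x ∈ cyl D x := fun _ _ => rfl

lemma isOpen_cyl (D : Finset (ℕ × ℕ)) (x : P) : IsOpen (cyl D x) := by
  have : cyl D x = (D : Set (ℕ × ℕ)).pi fun i => {x i} := by
    ext y; simp [cyl, Set.mem_pi]
  rw [this]
  exact isOpen_set_pi (Finset.finite_toSet D) fun i _ => isOpen_discrete _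

lemma exists_cyl {O : Set P} (hO : IsOpen O) {x : P} (hx : x ∈ O) : ∃ D, cyl D x ⊆ O := by
  obtain ⟨D, u, hu, hD⟩ := isOpen_pi_iff.mp hO x hx
  refine ⟨D, fun y hy => hD ?_⟩
  intro i hi
  rw [hy i hi]
  exact (hu i hi).2

/-- The pattern of a finite set. -/
def patt (T : Finset (ℕ × ℕ)) : P := fun i => decide (i ∈ T)

/-- The closed set of pairs that are disjoint below `h`. -/
def R (h : ℕ → ℕ) : Set (P × P) :=
  {v | ∀ n m, m ≤ h n → ¬ (v.1 (n, m) = true ∧ v.2 (n, m) = true)}

lemma isClosed_R (h : ℕ → ℕ) : IsClosed (R h) := by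
  have : R h = ⋂ n, ⋂ m, ⋂ (_ : m ≤ h n),
      {v : P × P | ¬ (v.1 (n, m) = true ∧ v.2 (n, m) = true)} := by
    ext v; simp [R]
  rw [this]
  refine isClosed_iInter fun n => isClosed_iInter fun m => isClosed_iInter fun _ => ?_
  have hc : Continuous fun v : P × P => (v.1 (n, m), v.2 (n, m)) :=
    ((continuous_apply (n, m)).comp continuous_fst).prodMk
      ((continuous_apply (n, m)).comp continuous_snd)
  exact (isClosed_discrete {p : Bool × Bool | ¬ (p.1 = true ∧ p.2 = true)}).preimage hc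

instance (h : ℕ → ℕ) : Nonempty (R h) := ⟨⟨(fun _ => false, fun _ => false), by simp [R]⟩⟩

instance (h : ℕ → ℕ) : CompactSpace (R h) := isCompact_iff_compactSpace.mp (isClosed_R h).isCompact

/-- Open sets of `R h` contain traces of boxes. -/
lemma exists_box {h : ℕ → ℕ} {U : Set (R h)} (hU : IsOpen U) {v : R h} (hv : v ∈ U) :
    ∃ D : Finset (ℕ × ℕ), ∀ w : R h, w.1.1 ∈ cyl D v.1.1 → w.1.2 ∈ cyl D v.1.2 → w ∈ U := by
  obtain ⟨V, hV, rfl⟩ := isOpen_induced_iff.mp hU
  have hv' : v.1 ∈ V := hv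
  obtain ⟨A, B, hA, hB, hvA, hvB, hAB⟩ := isOpen_prod_iff.mp hV v.1.1 v.1.2 hv'
  obtain ⟨D1, hD1⟩ := exists_cyl hA hvA
  obtain ⟨D2, hD2⟩ := exists_cyl hB hvB
  refine ⟨D1 ∪ D2, fun w hw1 hw2 => hAB ⟨hD1 ?_, hD2 ?_⟩⟩
  · exact fun i hi => hw1 i (Finset.mem_union_left _ hi)
  · exact fun i hi => hw2 i (Finset.mem_union_right _ hi)

/-- Free extensions of pairs stay in `R h`. -/
lemma mem_R_of_free {h : ℕ → ℕ} {v : R h} {D : Finset (ℕ × ℕ)} {x y : P}
    (hx : x ∈ cyl D v.1.1) (hy : y ∈ cyl D v.1.2) (hfree : ∀ i ∉ D, y i = !(x i)) :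
    (x, y) ∈ R h := by
  intro n m hm hxy
  change x (n, m) = true ∧ y (n, m) = true at hxy
  by_cases hi : (n, m) ∈ D
  · rw [hx _ hi, hy _ hi] at hxy
    exact v.2 n m hm hxy
  · rw [hfree _ hi] at hxy
    rcases hxy with ⟨h1, h2⟩
    rw [h1] at h2
    exact absurd h2 (by decide)

lemma isOpenMap_fst (h : ℕ → ℕ) : IsOpenMap fun v : R h => v.1.1 := by
  intro U hU
  rw [isOpen_iff_forall_mem_open]
  rintro _ ⟨v, hv, rfl⟩
  obtain ⟨D, hD⟩ := exists_box hU hv
  refine ⟨cyl D v.1.1, ?_, isOpen_cyl _ _, mem_cyl_self _ _⟩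
  intro x hx
  let y : P := fun i => if i ∈ D then v.1.2 i else !(x i)
  have hy : y ∈ cyl D v.1.2 := fun i hi => by simp [y, hi]
  have hm : (x, y) ∈ R h := mem_R_of_free hx hy fun i hi => by simp [y, hi]
  exact ⟨⟨(x, y), hm⟩, hD _ hx hy, rfl⟩

lemma isOpenMap_snd (h : ℕ → ℕ) : IsOpenMap fun v : R h => v.1.2 := by
  intro U hU
  rw [isOpen_iff_forall_mem_open]
  rintro _ ⟨v, hv, rfl⟩
  obtain ⟨D, hD⟩ := exists_box hU hv
  refine ⟨cyl D v.1.2, ?_, isOpen_cyl _ _, mem_cyl_self _ _⟩
  intro y hy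
  let x : P := fun i => if i ∈ D then v.1.1 i else !(y i)
  have hx : x ∈ cyl D v.1.1 := fun i hi => by simp [x, hi]
  have hm : (x, y) ∈ R h := mem_R_of_free hx hy fun i hi => by simp [x, hi]
  exact ⟨⟨(x, y), hm⟩, hD _ hx hy, rfl⟩

lemma continuous_fst_R (h : ℕ → ℕ) : Continuous fun v : R h => v.1.1 :=
  continuous_fst.comp continuous_subtype_val

lemma continuous_snd_R (h : ℕ → ℕ) : Continuous fun v : R h => v.1.2 :=
  continuous_snd.comp continuous_subtype_val

/-- Residual sets of points pull back to residual sets of pairs. -/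
lemma residual_fst {h : ℕ → ℕ} {Z : Set P} (hZ : Z ∈ residual P) (e : E) :
    ∀ᶠ v : R h in residual (R h), act e v.1.1 ∈ Z := by
  have h1 : Tendsto (act e) (residual P) (residual P) :=
    tendsto_residual_of_isOpenMap (actHomeo e).continuous (actHomeo e).isOpenMap
  exact (h1.comp (tendsto_residual_of_isOpenMap (continuous_fst_R h) (isOpenMap_fst h))) hZ

lemma residual_snd {h : ℕ → ℕ} {Z : Set P} (hZ : Z ∈ residual P) (e : E) :
    ∀ᶠ v : R h in residual (R h), act e v.1.2 ∈ Z := by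
  have h1 : Tendsto (act e) (residual P) (residual P) :=
    tendsto_residual_of_isOpenMap (actHomeo e).continuous (actHomeo e).isOpenMap
  exact (h1.comp (tendsto_residual_of_isOpenMap (continuous_snd_R h) (isOpenMap_snd h))) hZ

/-- The promise: the open sets `Q n`, `n` ranging over arbitrarily large members of `N S`, have
dense `S`-invariant union. -/
def Phi (N : Finset E → ℕ → Prop) (Q : ℕ → Set P) : Prop :=
  ∀ (S : Finset E) (k : ℕ) (D T : Finset (ℕ × ℕ)), ∃ n ≥ k, N S n ∧
    ∃ x ∈ cyl D (patt T), ∀ e ∈ S, act e x ∈ Q n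

/-- every point agrees on a finite set with a pattern -/
lemma exists_patt (D : Finset (ℕ × ℕ)) (x : P) : ∃ T, cyl D (patt T) = cyl D x := by
  refine ⟨D.filter fun i => x i = true, ?_⟩
  have hp : ∀ i ∈ D, patt (D.filter fun i => x i = true) i = x i := by
    intro i hi
    cases hx : x i <;> simp [patt, hi, hx]
  ext y
  constructor
  · intro hy i hi; rw [hy i hi, hp i hi]
  · intro hy i hi; rw [hy i hi, hp i hi]

/-- Preservation of the promise by a generic pair. -/
lemma gen_step {h : ℕ → ℕ} {N : Finset E → ℕ → Prop} {Q : ℕ → Set P}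
    (hmono : ∀ S S' n, S ⊆ S' → N S' n → N S n) (hQ : ∀ n, IsOpen (Q n)) (hPhi : Phi N Q)
    (S : Finset E) (k : ℕ) (D T : Finset (ℕ × ℕ)) :
    ∀ᶠ v : R h in residual (R h), ∃ n ≥ k, N S n ∧
      (∀ e ∈ S, act e v.1.1 ∈ Q n ∧ act e v.1.2 ∈ Q n) ∧
      ∃ x ∈ cyl D (patt T), ∀ e ∈ S, act e x ∈ Q n := by
  apply residual_of_dense_open
  · -- open
    have : {v : R h | ∃ n ≥ k, N S n ∧ (∀ e ∈ S, act e v.1.1 ∈ Q n ∧ act e v.1.2 ∈ Q n) ∧
        ∃ x ∈ cyl D (patt T), ∀ e ∈ S, act e x ∈ Q n} =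
        ⋃ n, ⋃ (_ : n ≥ k ∧ N S n ∧ ∃ x ∈ cyl D (patt T), ∀ e ∈ S, act e x ∈ Q n),
          ⋂ e ∈ S, {v : R h | act e v.1.1 ∈ Q n} ∩ {v : R h | act e v.1.2 ∈ Q n} := by
      ext v
      simp only [mem_ofPred_eq, mem_iUnion, mem_iInter, mem_inter_iff, exists_prop]
      constructor
      · rintro ⟨n, h1, h2, h3, h4⟩; exact ⟨n, ⟨h1, h2, h4⟩, h3⟩
      · rintro ⟨n, ⟨h1, h2, h4⟩, h3⟩; exact ⟨n, h1, h2, h3, h4⟩
    rw [this]
    refine isOpen_iUnion fun n => isOpen_iUnion fun _ => ?_
    refine isOpen_biInter_finset fun e _ => ?_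
    exact ((hQ n).preimage ((continuous_act e).comp (continuous_fst_R h))).inter
      ((hQ n).preimage ((continuous_act e).comp (continuous_snd_R h)))
  · -- dense
    rw [dense_iff_inter_open]
    rintro U hU ⟨v, hv⟩
    obtain ⟨D0, hD0⟩ := exists_box hU hv
    set D' := D0 ∪ D with hD'
    let ey : E := (D'.filter fun i => v.1.1 i = v.1.2 i, true)
    let es : E := (D'.filter fun i => i ∈ D ∧ v.1.1 i ≠ patt T i, false)
    classical
    let S' : Finset E := S ∪ S.image (fun e => comp e ey) ∪ S.image (fun e => comp e es)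
    obtain ⟨T', hT'⟩ := exists_patt D' v.1.1
    obtain ⟨n, hnk, hnN, x, hx, hxQ⟩ := hPhi S' k D' T'
    rw [hT'] at hx
    have hSS' : S ⊆ S' := fun e he => by simp [S', he]
    have hyfree : ∀ i ∉ D', act ey x i = !(x i) := by
      intro i hi
      simp [act, ey, hi]
    have hyD : act ey x ∈ cyl D' v.1.2 := by
      intro i hi
      simp only [act, ey, Finset.mem_filter, hi, true_and, hx i hi]
      cases h1 : v.1.1 i <;> cases h2 : v.1.2 i <;> simp
    have hsD : act es x ∈ cyl D (patt T) := by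
      intro i hi
      have hi' : i ∈ D' := by rw [hD']; exact Finset.mem_union_right _ hi
      simp only [act, es, Finset.mem_filter, hi', hi, true_and, hx i hi']
      cases h1 : v.1.1 i <;> cases h2 : patt T i <;> simp
    have hmem : (x, act ey x) ∈ R h := mem_R_of_free hx hyD hyfree
    refine ⟨⟨(x, act ey x), hmem⟩, hD0 _ ?_ ?_, n, hnk, hmono _ _ _ hSS' hnN, ?_, act es x, hsD, ?_⟩
    · exact fun i hi => hx i (by rw [hD']; exact Finset.mem_union_left _ hi)
    · exact fun i hi => hyD i (by rw [hD']; exact Finset.mem_union_left _ hi)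
    · intro e he
      refine ⟨hxQ e (hSS' he), ?_⟩
      show act e (act ey x) ∈ Q n
      rw [act_act]
      apply hxQ
      simp only [S', Finset.mem_union, Finset.mem_image]
      exact Or.inl (Or.inr ⟨e, he, rfl⟩)
    · intro e he
      rw [act_act]
      apply hxQ
      simp only [S', Finset.mem_union, Finset.mem_image]
      exact Or.inr ⟨e, he, rfl⟩

/-- Generic pairs have infinitely many common ones in any infinite part of any row. -/
lemma gen_row {h : ℕ → ℕ} (n : ℕ) {M : Set ℕ} (hM : M.Infinite) (k : ℕ) :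
    ∀ᶠ v : R h in residual (R h), ∃ m ≥ k, m ∈ M ∧ v.1.1 (n, m) = true ∧ v.1.2 (n, m) = true := by
  apply residual_of_dense_open
  · have : {v : R h | ∃ m ≥ k, m ∈ M ∧ v.1.1 (n, m) = true ∧ v.1.2 (n, m) = true} =
        ⋃ m, ⋃ (_ : m ≥ k ∧ m ∈ M), {v : R h | v.1.1 (n, m) = true} ∩
          {v : R h | v.1.2 (n, m) = true} := by
      ext v
      simp only [mem_ofPred_eq, mem_iUnion, mem_inter_iff, exists_prop]
      constructor
      · rintro ⟨m, h1, h2, h3⟩; exact ⟨m, ⟨h1, h2⟩, h3⟩
      · rintro ⟨m, ⟨h1, h2⟩, h3⟩; exact ⟨m, h1, h2, h3⟩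
    rw [this]
    refine isOpen_iUnion fun m => isOpen_iUnion fun _ => ?_
    exact ((isOpen_discrete {true}).preimage
      ((continuous_apply (n, m)).comp (continuous_fst_R h))).inter
      ((isOpen_discrete {true}).preimage ((continuous_apply (n, m)).comp (continuous_snd_R h)))
  · rw [dense_iff_inter_open]
    rintro U hU ⟨v, hv⟩
    obtain ⟨D, hD⟩ := exists_box hU hv
    -- choose `m` large
    let b : ℕ := max k (h n + 1) + (D.sup fun i => i.2) + 1
    obtain ⟨m, hmM, hmb⟩ := hM.exists_gt b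
    have hmk : k ≤ m := by omega
    have hmh : h n < m := by omega
    have hmD : (n, m) ∉ D := by
      intro hmem
      have := Finset.le_sup (f := fun i : ℕ × ℕ => i.2) hmem
      simp only at this
      omega
    let x : P := fun i => if i = (n, m) then true else if i ∈ D then v.1.1 i else false
    let y : P := fun i => if i = (n, m) then true else if i ∈ D then v.1.2 i else false
    have hxD : x ∈ cyl D v.1.1 := by
      intro i hi
      have : i ≠ (n, m) := fun h => hmD (h ▸ hi)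
      simp [x, this, hi]
    have hyD : y ∈ cyl D v.1.2 := by
      intro i hi
      have : i ≠ (n, m) := fun h => hmD (h ▸ hi)
      simp [y, this, hi]
    have hmem : (x, y) ∈ R h := by
      intro n' m' hm' hxy
      by_cases h1 : (n', m') = (n, m)
      · rw [Prod.mk.injEq] at h1
        obtain ⟨rfl, rfl⟩ := h1
        omega
      · by_cases h2 : (n', m') ∈ D
        · simp only [x, y, h1, h2, if_true, if_false] at hxy
          exact v.2 n' m' hm' hxy
        · simp [x, h1, h2] at hxy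
    exact ⟨⟨(x, y), hmem⟩, hD _ hxD hyD, m, hmk, hmM, by simp [x], by simp [y]⟩

end Pool.Agent.Helper62_Omega
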