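import Mathlib
import Pool.Agent.Helper62_Omega.Gen

/-!
A continuous open parametrisation of `R h` by the Baire space, and small index types.
-/

set_option autoImplicit false

namespace Pool.Agent.Helper62_Omega

open Set Filter Topology

/-- First coordinate of the parametrisation. -/
def par1 (h : ℕ → ℕ) (z : ℕ → ℕ) : P := fun i =>
  decide (z (Nat.pair i.1 i.2) % 4 = 1 ∨ (z (Nat.pair i.1 i.2) % 4 = 3 ∧ h i.1 < i.2))

/-- Second coordinate of the parametrisation. -/
def par2 (h : ℕ → ℕ) (z : ℕ → ℕ) : P := fun i =>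
  decide (z (Nat.pair i.1 i.2) % 4 = 2 ∨ (z (Nat.pair i.1 i.2) % 4 = 3 ∧ h i.1 < i.2))

lemma par_mem (h : ℕ → ℕ) (z : ℕ → ℕ) : (par1 h z, par2 h z) ∈ R h := by
  intro n m hm hxy
  simp only [par1, par2, decide_eq_true_eq] at hxy
  omega

/-- The parametrisation. -/
def par (h : ℕ → ℕ) (z : ℕ → ℕ) : R h := ⟨(par1 h z, par2 h z), par_mem h z⟩

lemma continuous_par (h : ℕ → ℕ) : Continuous (par h) := by
  refine Continuous.subtype_mk (Continuous.prodMk ?_ ?_) _
  · apply continuous_pi
    intro i
    exact (continuous_of_discreteTopology (f := fun c : ℕ =>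
      decide (c % 4 = 1 ∨ (c % 4 = 3 ∧ h i.1 < i.2)))).comp (continuous_apply (Nat.pair i.1 i.2))
  · apply continuous_pi
    intro i
    exact (continuous_of_discreteTopology (f := fun c : ℕ =>
      decide (c % 4 = 2 ∨ (c % 4 = 3 ∧ h i.1 < i.2)))).comp (continuous_apply (Nat.pair i.1 i.2))

lemma isOpenMap_par (h : ℕ → ℕ) : IsOpenMap (par h) := by
  intro U hU
  rw [isOpen_iff_forall_mem_open]
  rintro _ ⟨z, hz, rfl⟩
  obtain ⟨K, u, hu, hK⟩ := isOpen_pi_iff.mp hU z hz
  let D : Finset (ℕ × ℕ) := K.image Nat.unpair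
  refine ⟨{w : R h | w.1.1 ∈ cyl D (par1 h z)} ∩ {w : R h | w.1.2 ∈ cyl D (par2 h z)}, ?_, ?_, ?_⟩
  · rintro w ⟨hw1, hw2⟩
    let z' : ℕ → ℕ := fun k => if k ∈ K then z k else
      (if w.1.1 (Nat.unpair k) = true then 1 else 0) + (if w.1.2 (Nat.unpair k) = true then 2 else 0)
    refine ⟨z', hK fun k hk => ?_, ?_⟩
    · have hk' : k ∈ K := hk
      simp only [z', hk', if_true]
      exact (hu k hk).2
    · apply Subtype.ext
      apply Prod.ext
      · funext i
        show par1 h z' i = w.1.1 i
        by_cases hi : Nat.pair i.1 i.2 ∈ K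
        · have hiD : i ∈ D := by
            refine Finset.mem_image.mpr ⟨_, hi, ?_⟩
            rw [Nat.unpair_pair]
          rw [hw1 i hiD]
          simp only [par1, z', hi, if_true]
        · have hR := w.2 i.1 i.2
          simp only [par1, z', hi, if_false, Nat.unpair_pair]
          cases h1 : w.1.1 i <;> cases h2 : w.1.2 i
          · simp
          · simp
          · simp
          · simp only [if_true]
            have : h i.1 < i.2 := by
              by_contra hcon
              exact hR (not_lt.mp hcon) ⟨h1, h2⟩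
            simp [this]
      · funext i
        show par2 h z' i = w.1.2 i
        by_cases hi : Nat.pair i.1 i.2 ∈ K
        · have hiD : i ∈ D := by
            refine Finset.mem_image.mpr ⟨_, hi, ?_⟩
            rw [Nat.unpair_pair]
          rw [hw2 i hiD]
          simp only [par2, z', hi, if_true]
        · have hR := w.2 i.1 i.2
          simp only [par2, z', hi, if_false, Nat.unpair_pair]
          cases h1 : w.1.1 i <;> cases h2 : w.1.2 i
          · simp
          · simp
          · simp
          · simp only [if_true]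
            have : h i.1 < i.2 := by
              by_contra hcon
              exact hR (not_lt.mp hcon) ⟨h1, h2⟩
            simp [this]
  · exact ((isOpen_cyl _ _).preimage (continuous_fst_R h)).inter
      ((isOpen_cyl _ _).preimage (continuous_snd_R h))
  · exact ⟨mem_cyl_self _ _, mem_cyl_self _ _⟩

lemma eventually_par {h : ℕ → ℕ} {p : R h → Prop} (hp : ∀ᶠ v in residual (R h), p v) :
    ∀ᶠ z in residual (ℕ → ℕ), p (par h z) :=
  (tendsto_residual_of_isOpenMap (continuous_par h) (isOpenMap_par h)) hp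

/-- The Baire space is not covered by fewer than continuum many meager sets. -/
def CovM : Prop :=
  ∀ 𝒩 : Set (Set (ℕ → ℕ)), Cardinal.mk 𝒩 < Cardinal.continuum → (∀ N ∈ 𝒩, IsMeagre N) →
    ⋃₀ 𝒩 ≠ univ

lemma CovM.exists_generic (hcov : CovM) {ι : Type} (hι : Cardinal.mk ι < Cardinal.continuum)
    (p : ι → (ℕ → ℕ) → Prop) (h : ∀ i, ∀ᶠ z in residual (ℕ → ℕ), p i z) : ∃ z, ∀ i, p i z := by
  by_contra hcon
  push Not at hcon
  refine hcov (range fun i => {z | p i z}ᶜ) (lt_of_le_of_lt Cardinal.mk_range_le hι) ?_ ?_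
  · rintro _ ⟨i, rfl⟩
    show ({z | p i z}ᶜ)ᶜ ∈ residual _
    rw [compl_compl]
    exact h i
  · rw [eq_univ_iff_forall]
    intro z
    obtain ⟨i, hi⟩ := hcon z
    exact ⟨_, ⟨i, rfl⟩, hi⟩

/-- Small types. -/
def Sm (α : Type) : Prop := Cardinal.mk α < Cardinal.continuum

lemma Sm.of_countable (α : Type) [Countable α] : Sm α :=
  lt_of_le_of_lt (Cardinal.mk_le_aleph0_iff.mpr inferInstance) Cardinal.aleph0_lt_continuum

lemma Sm.prod {α β : Type} (ha : Sm α) (hb : Sm β) : Sm (α × β) := by
  unfold Sm at *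
  rw [Cardinal.mk_prod, Cardinal.lift_id, Cardinal.lift_id]
  exact Cardinal.mul_lt_of_lt Cardinal.aleph0_le_continuum ha hb

lemma Sm.sum {α β : Type} (ha : Sm α) (hb : Sm β) : Sm (α ⊕ β) := by
  unfold Sm at *
  rw [Cardinal.mk_sum, Cardinal.lift_id, Cardinal.lift_id]
  exact Cardinal.add_lt_of_lt Cardinal.aleph0_le_continuum ha hb

lemma Sm.finset {α : Type} (ha : Sm α) : Sm (Finset α) := by
  rcases finite_or_infinite α with hf | hi
  · exact Sm.of_countable _
  · unfold Sm at *
    rwa [Cardinal.mk_finset_of_infinite]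

end Pool.Agent.Helper62_Omega
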