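import Mathlib
import Pool.Agent.Helper62_Omega.Gen
import Pool.Agent.Helper62_Omega.Param

/-!
The transfinite construction, assuming that the Baire space is not the union of fewer than
continuum many meager sets.
-/

set_option autoImplicit false

namespace Pool.Agent.Helper62_Omega

open Set Filter Topology

open Classical in
/-- An open set equal to `s` up to a meager set (if there is one). -/
noncomputable def op (s : Set P) : Set P :=
  if h : ∃ u : Set P, IsOpen u ∧ s =ᶠ[residual P] u then h.choose else ∅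

lemma isOpen_op (s : Set P) : IsOpen (op s) := by
  unfold op
  split_ifs with h
  · exact h.choose_spec.1
  · exact isOpen_empty

lemma op_spec {s : Set P} (hs : MeasurableSet s) : {x | x ∈ s ↔ x ∈ op s} ∈ residual P := by
  have h : ∃ u : Set P, IsOpen u ∧ s =ᶠ[residual P] u := hs.residualEq_isOpen
  have h2 : s =ᶠ[residual P] op s := by
    unfold op
    rw [dif_pos h]
    exact h.choose_spec.2
  filter_upwards [h2] with x hx
  exact iff_of_eq hx

section recursion

variable {I : Type} [LinearOrder I]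

/-- The `n`-th selected set contains all `S`-translates of the points with index in `A`. -/
def Nset (W : ℕ → ℕ → Set P) (g : ℕ → ℕ) (f : I → P × P) (A : Finset I) (S : Finset E) (n : ℕ) :
    Prop :=
  ∀ β ∈ A, ∀ e ∈ S, act e (f β).1 ∈ W n (g n) ∧ act e (f β).2 ∈ W n (g n)

/-- Common ones in the `n`-th row. -/
def Row (n : ℕ) (f : I → P × P) (A : Finset I) : Set ℕ :=
  {m | ∀ β ∈ A, (f β).1 (n, m) = true ∧ (f β).2 (n, m) = true}

/-- The generic covering property at stage `γ`. -/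
def Star (f : I → P × P) (γ : I) (W : ℕ → ℕ → Set P) : Prop :=
  ∀ (A : Finset I), (∀ β ∈ A, β < γ) → ∀ (n : ℕ) (S : Finset E) (D T : Finset (ℕ × ℕ)),
    ∃ m, (∀ β ∈ A, ∀ e ∈ S, act e (f β).1 ∈ W n m ∧ act e (f β).2 ∈ W n m) ∧
      ∃ x ∈ cyl D (patt T), ∀ e ∈ S, act e x ∈ op (W n m)

/-- `g` selects correctly for the points chosen before stage `γ`. -/
def Good (f : I → P × P) (γ : I) (W : ℕ → ℕ → Set P) (g : ℕ → ℕ) : Prop :=
  ∀ (A : Finset I), (∀ β ∈ A, β < γ) → Phi (Nset W g f A) (fun n => op (W n (g n)))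

lemma exists_embed (γ : I) : ∀ A : Finset I, (∀ β ∈ A, β < γ) →
    ∃ B : Finset (Iio γ), B.map (Function.Embedding.subtype _) = A := by
  classical
  intro A hA
  exact ⟨A.subtype (fun β => β < γ), Finset.subtype_map_of_mem hA⟩

lemma good_exists (hcov : CovM) {f : I → P × P} {γ : I} (hγ : Sm (Iio γ)) {W : ℕ → ℕ → Set P}
    (h : Star f γ W) : ∃ g, Good f γ W g := by
  classical
  let ι := Finset (Iio γ) × Finset E × ℕ × Finset (ℕ × ℕ) × Finset (ℕ × ℕ)
  have hι : Sm ι := hγ.finset.prod (Sm.of_countable _)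
  let p : ι → (ℕ → ℕ) → Prop := fun q g => ∃ n ≥ q.2.2.1,
    Nset W g f (q.1.map (Function.Embedding.subtype _)) q.2.1 n ∧
      ∃ x ∈ cyl q.2.2.2.1 (patt q.2.2.2.2), ∀ e ∈ q.2.1, act e x ∈ op (W n (g n))
  have hp : ∀ q, ∀ᶠ g in residual (ℕ → ℕ), p q g := by
    rintro ⟨B, S, k, D, T⟩
    apply residual_of_dense_open
    · -- open
      rw [isOpen_iff_forall_mem_open]
      rintro g ⟨n, hn, hN, hx⟩
      refine ⟨{g' | g' n = g n}, ?_, ?_, rfl⟩
      · intro g' hg'
        have hg'' : g' n = g n := hg'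
        refine ⟨n, hn, ?_, ?_⟩
        · unfold Nset at hN ⊢
          rw [hg'']
          exact hN
        · simp only [hg'']
          exact hx
      · have hc : Continuous fun g' : ℕ → ℕ => g' n := continuous_apply n
        exact (isOpen_discrete ({g n} : Set ℕ)).preimage hc
    · rw [dense_iff_inter_open]
      rintro U hU ⟨g, hg⟩
      obtain ⟨K, u, hu, hK⟩ := isOpen_pi_iff.mp hU g hg
      obtain ⟨n, hn⟩ := (Set.infinite_univ (α := ℕ)).sdiff (finite_Iio k) |>.sdiff K.finite_toSet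
        |>.nonempty
      have hnk : n ≥ k := by
        have := hn.1.2
        simpa using this
      have hnK : n ∉ K := by
        have := hn.2
        simpa using this
      obtain ⟨m, hm, hx⟩ := h (B.map (Function.Embedding.subtype _)) (by
        intro β hβ
        rw [Finset.mem_map] at hβ
        obtain ⟨b, _, rfl⟩ := hβ
        exact b.2) n S D T
      refine ⟨Function.update g n m, hK ?_, n, hnk, ?_, ?_⟩
      · intro j hj
        have hjn : j ≠ n := fun h => hnK (h ▸ hj)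
        rw [Function.update_of_ne hjn]
        exact (hu j hj).2
      · intro β hβ e he
        rw [Function.update_self]
        exact hm β hβ e he
      · simp only [Function.update_self]
        exact hx
  obtain ⟨g, hg⟩ := hcov.exists_generic hι p hp
  refine ⟨g, ?_⟩
  intro A hA S k D T
  obtain ⟨B, rfl⟩ := exists_embed γ A hA
  exact hg (B, S, k, D, T)

open Classical in
/-- The selector. -/
noncomputable def sel (f : I → P × P) (γ : I) (W : ℕ → ℕ → Set P) : ℕ → ℕ :=
  if h : ∃ g, Good f γ W g then h.choose else fun _ => 0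

lemma sel_spec (hcov : CovM) {f : I → P × P} {γ : I} (hγ : Sm (Iio γ)) {W : ℕ → ℕ → Set P}
    (h : Star f γ W) : Good f γ W (sel f γ W) := by
  have h' := good_exists hcov hγ h
  unfold sel
  rw [dif_pos h']
  exact h'.choose_spec

/-- Requirements for the pair chosen at stage `i`. -/
def Req (H : I → ℕ → ℕ) (W : I → ℕ → ℕ → Set P) (i : I) (f : I → P × P) (v : P × P) : Prop :=
  v ∈ R (H i) ∧
  (∀ γ ≤ i, ∀ n m e, (act e v.1 ∈ W γ n m ↔ act e v.1 ∈ op (W γ n m)) ∧
    (act e v.2 ∈ W γ n m ↔ act e v.2 ∈ op (W γ n m))) ∧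
  (∀ γ ≤ i, ∀ A : Finset I, (∀ β ∈ A, β < i) →
    Phi (Nset (W γ) (sel f γ (W γ)) f A)
      (fun n => op (W γ n (sel f γ (W γ) n))) →
    ∀ (S : Finset E) (k : ℕ) (D T : Finset (ℕ × ℕ)), ∃ n ≥ k,
      Nset (W γ) (sel f γ (W γ)) f A S n ∧
      (∀ e ∈ S, act e v.1 ∈ op (W γ n (sel f γ (W γ) n)) ∧
        act e v.2 ∈ op (W γ n (sel f γ (W γ) n))) ∧
      ∃ x ∈ cyl D (patt T), ∀ e ∈ S, act e x ∈ op (W γ n (sel f γ (W γ) n))) ∧
  (∀ n, ∀ A : Finset I, (∀ β ∈ A, β < i) → (Row n f A).Infinite →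
    ∀ k, ∃ m ≥ k, m ∈ Row n f A ∧ v.1 (n, m) = true ∧ v.2 (n, m) = true)

lemma Nset_congr {f f' : I → P × P} {i : I} (h : ∀ j < i, f j = f' j) {A : Finset I}
    (hA : ∀ β ∈ A, β < i) (W : ℕ → ℕ → Set P) (g : ℕ → ℕ) : Nset W g f A = Nset W g f' A := by
  funext S n
  unfold Nset
  apply propext
  constructor
  · intro h1 β hβ; rw [← h β (hA β hβ)]; exact h1 β hβ
  · intro h1 β hβ; rw [h β (hA β hβ)]; exact h1 β hβ

lemma Good_congr {f f' : I → P × P} {i γ : I} (h : ∀ j < i, f j = f' j) (hγ : γ ≤ i)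
    (W : ℕ → ℕ → Set P) : Good f γ W = Good f' γ W := by
  funext g
  unfold Good
  apply propext
  refine forall_congr' fun A => forall_congr' fun hA => ?_
  rw [Nset_congr h fun β hβ => lt_of_lt_of_le (hA β hβ) hγ]

lemma sel_congr {f f' : I → P × P} {i γ : I} (h : ∀ j < i, f j = f' j) (hγ : γ ≤ i)
    (W : ℕ → ℕ → Set P) : sel f γ W = sel f' γ W := by
  unfold sel
  rw [Good_congr h hγ]

lemma Row_congr {f f' : I → P × P} {i : I} (h : ∀ j < i, f j = f' j) {A : Finset I}
    (hA : ∀ β ∈ A, β < i) (n : ℕ) : Row n f A = Row n f' A := by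
  ext m
  constructor
  · intro h1 β hβ; rw [← h β (hA β hβ)]; exact h1 β hβ
  · intro h1 β hβ; rw [h β (hA β hβ)]; exact h1 β hβ

lemma Req_congr {H : I → ℕ → ℕ} {W : I → ℕ → ℕ → Set P} {i : I} {f f' : I → P × P}
    (h : ∀ j < i, f j = f' j) {v : P × P} (hR : Req H W i f v) : Req H W i f' v := by
  obtain ⟨h1, h2, h3, h4⟩ := hR
  refine ⟨h1, h2, ?_, ?_⟩
  · intro γ hγ A hA
    have := h3 γ hγ A hA
    rw [sel_congr h hγ, Nset_congr h hA] at this
    exact this
  · intro n A hA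
    have := h4 n A hA
    rw [Row_congr h hA] at this
    exact this

lemma exists_rec [WellFoundedLT I] {V : Type*} [Inhabited V] (Rq : I → (I → V) → V → Prop)
    (hcongr : ∀ i f f' v, (∀ j < i, f j = f' j) → Rq i f v → Rq i f' v)
    (hex : ∀ i f, ∃ v, Rq i f v) : ∃ f : I → V, ∀ i, Rq i f (f i) := by
  classical
  choose c hc using hex
  let F : (i : I) → ((j : I) → j < i → V) → V := fun i pr =>
    c i (fun j => if h : j < i then pr j h else default)
  let f : I → V := WellFounded.fix (wellFounded_lt (α := I)) F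
  refine ⟨f, fun i => ?_⟩
  have hfi : f i = c i (fun j => if h : j < i then f j else default) :=
    WellFounded.fix_eq (wellFounded_lt (α := I)) F i
  rw [hfi]
  refine hcongr i _ _ _ ?_ (hc i _)
  intro j hj
  simp [hj]

lemma exists_req (hcov : CovM) (hI : ∀ i : I, Sm (Iio i)) (H : I → ℕ → ℕ)
    (W : I → ℕ → ℕ → Set P)
    (hW : ∀ γ n m, MeasurableSet (W γ n m)) (i : I) (f : I → P × P) :
    ∃ v, Req H W i f v := by
  classical
  have hIic : Sm (Iic i) := by
    have h1 : Sm (Iio i ⊕ Unit) := (hI i).sum (Sm.of_countable _)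
    refine lt_of_le_of_lt ?_ h1
    refine Cardinal.mk_le_of_surjective (f := fun x : Iio i ⊕ Unit =>
      Sum.elim (fun a : Iio i => (⟨a.1, le_of_lt a.2⟩ : Iic i)) (fun _ => ⟨i, le_rfl⟩) x) ?_
    rintro ⟨a, ha⟩
    rcases lt_or_eq_of_le (show a ≤ i from ha) with h | h
    · exact ⟨Sum.inl ⟨a, h⟩, rfl⟩
    · exact ⟨Sum.inr (), by simp [h]⟩
  let ι2 := Iic i × (ℕ × ℕ × E)
  let ι3 := Iic i × (Finset (Iio i) × (Finset E × ℕ × Finset (ℕ × ℕ) × Finset (ℕ × ℕ)))
  let ι4 := Finset (Iio i) × (ℕ × ℕ)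
  have hι2 : Sm ι2 := hIic.prod (Sm.of_countable _)
  have hι3 : Sm ι3 := hIic.prod ((hI i).finset.prod (Sm.of_countable _))
  have hι4 : Sm ι4 := (hI i).finset.prod (Sm.of_countable _)
  let ι := ι2 ⊕ (ι3 ⊕ ι4)
  have hι : Sm ι := hι2.sum (hι3.sum hι4)
  let p2 : ι2 → (R (H i)) → Prop := fun q v =>
      (act q.2.2.2 v.1.1 ∈ W q.1 q.2.1 q.2.2.1 ↔ act q.2.2.2 v.1.1 ∈ op (W q.1 q.2.1 q.2.2.1)) ∧
      (act q.2.2.2 v.1.2 ∈ W q.1 q.2.1 q.2.2.1 ↔ act q.2.2.2 v.1.2 ∈ op (W q.1 q.2.1 q.2.2.1))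
  let p3 : ι3 → (R (H i)) → Prop := fun q v =>
      Phi (Nset (W q.1) (sel f q.1 (W q.1)) f (q.2.1.map (Function.Embedding.subtype _)))
        (fun n => op (W q.1 n (sel f q.1 (W q.1) n))) →
      ∃ n ≥ q.2.2.2.1, Nset (W q.1) (sel f q.1 (W q.1)) f
          (q.2.1.map (Function.Embedding.subtype _)) q.2.2.1 n ∧
      (∀ e ∈ q.2.2.1, act e v.1.1 ∈ op (W q.1 n (sel f q.1 (W q.1) n)) ∧
        act e v.1.2 ∈ op (W q.1 n (sel f q.1 (W q.1) n))) ∧
      ∃ x ∈ cyl q.2.2.2.2.1 (patt q.2.2.2.2.2), ∀ e ∈ q.2.2.1,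
        act e x ∈ op (W q.1 n (sel f q.1 (W q.1) n))
  let p4 : ι4 → (R (H i)) → Prop := fun q v =>
      (Row q.2.1 f (q.1.map (Function.Embedding.subtype _))).Infinite →
      ∃ m ≥ q.2.2, m ∈ Row q.2.1 f (q.1.map (Function.Embedding.subtype _)) ∧
        v.1.1 (q.2.1, m) = true ∧ v.1.2 (q.2.1, m) = true
  have e2 : ∀ q, ∀ᶠ v : R (H i) in residual (R (H i)), p2 q v := by
    rintro ⟨γ, n, m, e⟩
    exact (residual_fst (op_spec (hW γ n m)) e).and (residual_snd (op_spec (hW γ n m)) e)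
  have e3 : ∀ q, ∀ᶠ v : R (H i) in residual (R (H i)), p3 q v := by
    rintro ⟨γ, B, S, k, D, T⟩
    by_cases hPhi : Phi (Nset (W γ) (sel f γ (W γ)) f (B.map (Function.Embedding.subtype _)))
        (fun n => op (W γ n (sel f γ (W γ) n)))
    · have := gen_step (h := H i) (N := Nset (W γ) (sel f γ (W γ)) f
        (B.map (Function.Embedding.subtype _))) (Q := fun n => op (W γ n (sel f γ (W γ) n)))
        (by
          intro S S' n hSS h β hβ e he
          exact h β hβ e (hSS he))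
        (fun n => isOpen_op _) hPhi S k D T
      filter_upwards [this] with v hv _
      exact hv
    · exact Eventually.of_forall fun v h => absurd h hPhi
  have e4 : ∀ q, ∀ᶠ v : R (H i) in residual (R (H i)), p4 q v := by
    rintro ⟨B, n, k⟩
    by_cases hinf : (Row n f (B.map (Function.Embedding.subtype _))).Infinite
    · filter_upwards [gen_row (h := H i) n hinf k] with v hv _
      exact hv
    · exact Eventually.of_forall fun v h => absurd h hinf
  let p : ι → (ℕ → ℕ) → Prop := fun q z =>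
    Sum.elim (fun q => p2 q (par (H i) z))
      (fun q => Sum.elim (fun q => p3 q (par (H i) z)) (fun q => p4 q (par (H i) z)) q) q
  obtain ⟨z, hz⟩ := hcov.exists_generic hι p (by
    rintro (q | q | q)
    · exact eventually_par (e2 q)
    · exact eventually_par (e3 q)
    · exact eventually_par (e4 q))
  refine ⟨(par (H i) z).1, (par (H i) z).2, ?_, ?_, ?_⟩
  · intro γ hγ n m e
    exact hz (Sum.inl (⟨γ, hγ⟩, n, m, e))
  · intro γ hγ A hA hPhi S k D T
    obtain ⟨B, rfl⟩ := exists_embed i A hA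
    exact hz (Sum.inr (Sum.inl (⟨γ, hγ⟩, B, S, k, D, T))) hPhi
  · intro n A hA hinf k
    obtain ⟨B, rfl⟩ := exists_embed i A hA
    exact hz (Sum.inr (Sum.inr (B, n, k))) hinf

/-- The construction. -/
theorem exists_points [WellFoundedLT I] (hcov : CovM) (hI : ∀ i : I, Sm (Iio i))
    (H : I → ℕ → ℕ)
    (W : I → ℕ → ℕ → Set P) (hW : ∀ γ n m, MeasurableSet (W γ n m)) :
    ∃ f : I → P × P, ∀ i, Req H W i f (f i) :=
  exists_rec (Req H W) (fun _ _ _ _ h hR => Req_congr h hR) (exists_req hcov hI H W hW)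

end recursion

section properties

variable {I : Type} [LinearOrder I] {H : I → ℕ → ℕ} {W : I → ℕ → ℕ → Set P}
  {f : I → P × P}

/-- All translates. -/
def Xset (f : I → P × P) : Set P := {p | ∃ β, ∃ e : E, p = act e (f β).1 ∨ p = act e (f β).2}

/-- The points themselves. -/
def Yset (f : I → P × P) : Set P := {p | ∃ β, p = (f β).1 ∨ p = (f β).2}

lemma Yset_subset (f : I → P × P) : Yset f ⊆ Xset f := by
  rintro p ⟨β, h⟩
  refine ⟨β, one, ?_⟩
  simpa [act_one] using h

lemma star_of_omega (hf : ∀ i, Req H W i f (f i)) (γ : I)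
    (hom : ∀ n, ∀ F : Set P, F.Finite → F ⊆ Xset f → ∃ m, F ⊆ W γ n m) :
    Star f γ (W γ) := by
  classical
  intro A _ n S D T
  let e0 : E := (D.filter fun i => (f γ).1 i ≠ patt T i, false)
  have hx : act e0 (f γ).1 ∈ cyl D (patt T) := by
    intro i hi
    simp only [act, e0, Finset.mem_filter, hi, true_and]
    cases h1 : (f γ).1 i <;> cases h2 : patt T i <;> simp
  let F1 : Set P := (fun q : I × E => act q.2 (f q.1).1) '' ((A ×ˢ S : Finset (I × E)) : Set (I × E))
  let F2 : Set P := (fun q : I × E => act q.2 (f q.1).2) '' ((A ×ˢ S : Finset (I × E)) : Set (I × E))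
  let F3 : Set P := (fun e => act e (act e0 (f γ).1)) '' (S : Set E)
  have hFfin : (F1 ∪ F2 ∪ F3).Finite :=
    (((Finset.finite_toSet _).image _).union ((Finset.finite_toSet _).image _)).union
      ((Finset.finite_toSet _).image _)
  have hFX : (F1 ∪ F2 ∪ F3) ⊆ Xset f := by
    rintro p ((⟨q, _, rfl⟩ | ⟨q, _, rfl⟩) | ⟨e, _, rfl⟩)
    · exact ⟨q.1, q.2, Or.inl rfl⟩
    · exact ⟨q.1, q.2, Or.inr rfl⟩
    · exact ⟨γ, comp e e0, Or.inl (act_act _ _ _)⟩
  obtain ⟨m, hm⟩ := hom n _ hFfin hFX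
  refine ⟨m, ?_, act e0 (f γ).1, hx, ?_⟩
  · intro β hβ e he
    have hmem : (β, e) ∈ ((A ×ˢ S : Finset (I × E)) : Set (I × E)) := by
      simp [hβ, he]
    exact ⟨hm (Or.inl (Or.inl ⟨(β, e), hmem, rfl⟩)), hm (Or.inl (Or.inr ⟨(β, e), hmem, rfl⟩))⟩
  · intro e he
    have h1 : act e (act e0 (f γ).1) ∈ W γ n m := hm (Or.inr ⟨e, he, rfl⟩)
    rw [act_act] at h1 ⊢
    exact (((hf γ).2.1 γ le_rfl n m (comp e e0)).1).mp h1

lemma phi_of_star (hcov : CovM) (hI : ∀ i : I, Sm (Iio i)) (hf : ∀ i, Req H W i f (f i)) (γ : I)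
    (hstar : Star f γ (W γ)) (A : Finset I) :
    Phi (Nset (W γ) (sel f γ (W γ)) f A)
      (fun n => op (W γ n (sel f γ (W γ) n))) := by
  classical
  induction A using Finset.induction_on_max with
  | empty => exact sel_spec hcov (hI γ) hstar ∅ (by simp)
  | insert a s hmax ih =>
    by_cases hγa : γ ≤ a
    · have h3 := (hf a).2.2.1 γ hγa s hmax ih
      intro S k D T
      obtain ⟨n, hn, hN, hv, hx⟩ := h3 S k D T
      refine ⟨n, hn, ?_, hx⟩
      intro β hβ e he
      rw [Finset.mem_insert] at hβ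
      rcases hβ with rfl | hβ
      · have h2 := (hf β).2.1 γ hγa n (sel f γ (W γ) n) e
        exact ⟨h2.1.mpr (hv e he).1, h2.2.mpr (hv e he).2⟩
      · exact hN β hβ e he
    · apply sel_spec hcov (hI γ) hstar
      intro β hβ
      rw [Finset.mem_insert] at hβ
      rcases hβ with rfl | hβ
      · exact not_le.mp hγa
      · exact (hmax β hβ).trans (not_le.mp hγa)

/-- The selected sets form an omega-cover. -/
theorem select (hcov : CovM) (hI : ∀ i : I, Sm (Iio i)) (hf : ∀ i, Req H W i f (f i)) (γ : I)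
    (hom : ∀ n, ∀ F : Set P, F.Finite → F ⊆ Xset f → ∃ m, F ⊆ W γ n m) :
    ∃ g : ℕ → ℕ, ∀ F : Set P, F.Finite → F ⊆ Xset f → ∃ n, F ⊆ W γ n (g n) := by
  classical
  have hstar := star_of_omega hf γ hom
  refine ⟨sel f γ (W γ), ?_⟩
  have key : ∀ F : Set P, F.Finite → F ⊆ Xset f → ∃ (A : Finset I) (S : Finset E),
      ∀ n, Nset (W γ) (sel f γ (W γ)) f A S n → F ⊆ W γ n (sel f γ (W γ) n) := by
    intro F hF
    induction F, hF using Set.Finite.induction_on with
    | empty => exact fun _ => ⟨∅, ∅, fun n _ => empty_subset _⟩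
    | @insert p F _ _ ih =>
      intro hsub
      obtain ⟨A, S, hk⟩ := ih ((subset_insert _ _).trans hsub)
      obtain ⟨β, e, he⟩ := hsub (mem_insert p F)
      refine ⟨insert β A, insert e S, fun n hN => ?_⟩
      refine insert_subset ?_ (hk n ?_)
      · have h1 := hN β (Finset.mem_insert_self _ _) e (Finset.mem_insert_self _ _)
        rcases he with rfl | rfl
        · exact h1.1
        · exact h1.2
      · intro β' hβ' e' he'
        exact hN β' (Finset.mem_insert_of_mem hβ') e' (Finset.mem_insert_of_mem he')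
  intro F hF hFX
  obtain ⟨A, S, hk⟩ := key F hF hFX
  obtain ⟨n, _, hN, _⟩ := phi_of_star hcov hI hf γ hstar A S 0 ∅ ∅
  exact ⟨n, hk n hN⟩

lemma row_infinite (hf : ∀ i, Req H W i f (f i)) (n : ℕ) (A : Finset I) :
    (Row n f A).Infinite := by
  classical
  induction A using Finset.induction_on_max with
  | empty =>
    have : Row n f ∅ = univ := by ext m; simp [Row]
    rw [this]
    exact infinite_univ
  | insert a s hmax ih =>
    have h4 := (hf a).2.2.2 n s hmax ih
    rw [Set.infinite_iff_exists_gt]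
    intro k
    obtain ⟨m, hm, h1, h2, h3⟩ := h4 (k + 1)
    refine ⟨m, ?_, by omega⟩
    intro β hβ
    rw [Finset.mem_insert] at hβ
    rcases hβ with rfl | hβ
    · exact ⟨h2, h3⟩
    · exact h1 β hβ

end properties

end Pool.Agent.Helper62_Omega
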