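import Mathlib

/-!
Selection principles for countable Borel omega-covers.
-/

set_option autoImplicit false

namespace Pool.Agent.Helper62_Omega

/-- `BorelOmegaCovers T` is the collection `B_Ω` of countable Borel `ω`-covers of the topological
space `T`: countable families of Borel subsets of `T` with union `T`, not containing `T` itself as a
member, such that every finite subset of `T` is contained in some member. -/
def BorelOmegaCovers (T : Type*) [TopologicalSpace T] : Set (Set (Set T)) :=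
  {𝒰 | 𝒰.Countable ∧ (∀ U ∈ 𝒰, @MeasurableSet T (borel T) U) ∧ ⋃₀ 𝒰 = Set.univ ∧ Set.univ ∉ 𝒰 ∧
    ∀ F : Set T, F.Finite → ∃ U ∈ 𝒰, F ⊆ U}

/-- The selection principle `S_1(𝒜, 𝒞)`: from every sequence of members of `𝒜` one can select one
set from each so that the selected sets form a member of `𝒞`. -/
def S1 {T : Type*} (𝒜 𝒞 : Set (Set (Set T))) : Prop :=
  ∀ 𝒰 : ℕ → Set (Set T), (∀ n, 𝒰 n ∈ 𝒜) →
    ∃ U : ℕ → Set T, (∀ n, U n ∈ 𝒰 n) ∧ Set.range U ∈ 𝒞

/-- The selection principle `S_fin(𝒜, 𝒞)`: from every sequence of members of `𝒜` one can select a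
finite subfamily of each so that the union of the selected families is a member of `𝒞`. -/
def Sfin {T : Type*} (𝒜 𝒞 : Set (Set (Set T))) : Prop :=
  ∀ 𝒰 : ℕ → Set (Set T), (∀ n, 𝒰 n ∈ 𝒜) →
    ∃ ℱ : ℕ → Set (Set T), (∀ n, ℱ n ⊆ 𝒰 n ∧ (ℱ n).Finite) ∧ (⋃ n, ℱ n) ∈ 𝒞

end Pool.Agent.Helper62_Omega
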