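import Mathlib
import Pool.Agent.Helper62_Omega.Defs
import Pool.Agent.Helper62_Omega.Construct

/-!
Main theorem: if the Baire space is not the union of fewer than continuum many meager sets, then
neither `S_1(B_Ω, B_Ω)` nor `S_fin(B_Ω, B_Ω)` is hereditary.
-/

set_option autoImplicit false

namespace Pool.Agent.Helper62_Omega

open Set Filter Topology

/-- Countable measurable omega-covers. -/
def BOm (T : Type*) [MeasurableSpace T] : Set (Set (Set T)) :=
  {𝒰 | 𝒰.Countable ∧ (∀ U ∈ 𝒰, MeasurableSet U) ∧ ⋃₀ 𝒰 = Set.univ ∧ Set.univ ∉ 𝒰 ∧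
    ∀ F : Set T, F.Finite → ∃ U ∈ 𝒰, F ⊆ U}

lemma borelOmegaCovers_eq (T : Type*) [TopologicalSpace T] [MeasurableSpace T] [BorelSpace T] :
    BorelOmegaCovers T = BOm T := by
  unfold BorelOmegaCovers BOm
  rw [← BorelSpace.measurable_eq (α := T)]

lemma BOm_image {T T' : Type*} [MeasurableSpace T] [MeasurableSpace T'] (e : T ≃ᵐ T')
    {𝒰 : Set (Set T)} (h : 𝒰 ∈ BOm T) : (fun U => e '' U) '' 𝒰 ∈ BOm T' := by
  obtain ⟨h1, h2, h3, h4, h5⟩ := h
  refine ⟨h1.image _, ?_, ?_, ?_, ?_⟩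
  · rintro _ ⟨U, hU, rfl⟩
    exact e.measurableEmbedding.measurableSet_image.mpr (h2 U hU)
  · rw [eq_univ_iff_forall]
    intro x
    have : e.symm x ∈ ⋃₀ 𝒰 := by rw [h3]; trivial
    obtain ⟨U, hU, hx⟩ := this
    exact ⟨e '' U, ⟨U, hU, rfl⟩, e.symm x, hx, by simp⟩
  · rintro ⟨U, hU, h⟩
    apply h4
    have : U = univ := by
      rw [eq_univ_iff_forall]
      intro x
      have : e x ∈ e '' U := by
        have h' : e '' U = univ := h
        rw [h']; trivial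
      obtain ⟨y, hy, hxy⟩ := this
      rwa [← e.injective hxy]
    rwa [← this]
  · intro F hF
    obtain ⟨U, hU, hFU⟩ := h5 (e.symm '' F) (hF.image _)
    refine ⟨e '' U, ⟨U, hU, rfl⟩, ?_⟩
    intro x hx
    exact ⟨e.symm x, hFU ⟨x, hx, rfl⟩, by simp⟩

lemma S1_transfer {T T' : Type*} [MeasurableSpace T] [MeasurableSpace T'] (e : T ≃ᵐ T')
    (h : S1 (BOm T) (BOm T)) : S1 (BOm T') (BOm T') := by
  intro 𝒰 h𝒰
  obtain ⟨U, hU, hr⟩ := h (fun n => (fun U => e.symm '' U) '' 𝒰 n)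
    (fun n => BOm_image e.symm (h𝒰 n))
  choose V hV hVU using hU
  refine ⟨V, hV, ?_⟩
  have := BOm_image e hr
  convert this using 1
  ext s
  simp only [mem_range, mem_image, exists_exists_eq_and]
  have hh : ∀ n, e '' U n = V n := by
    intro n
    rw [← hVU n]
    simp only [image_image]
    simp
  constructor
  · rintro ⟨n, rfl⟩; exact ⟨n, hh n⟩
  · rintro ⟨n, rfl⟩; exact ⟨n, (hh n).symm⟩

lemma Sfin_transfer {T T' : Type*} [MeasurableSpace T] [MeasurableSpace T'] (e : T ≃ᵐ T')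
    (h : Sfin (BOm T) (BOm T)) : Sfin (BOm T') (BOm T') := by
  intro 𝒰 h𝒰
  obtain ⟨ℱ, hℱ, hr⟩ := h (fun n => (fun U => e.symm '' U) '' 𝒰 n)
    (fun n => BOm_image e.symm (h𝒰 n))
  refine ⟨fun n => (fun U => e '' U) '' ℱ n, fun n => ⟨?_, (hℱ n).2.image _⟩, ?_⟩
  · rintro _ ⟨U, hU, rfl⟩
    obtain ⟨V, hV, rfl⟩ := (hℱ n).1 hU
    have : e '' (e.symm '' V) = V := by
      simp only [image_image]
      simp
    simpa only [this] using hV
  · have := BOm_image e hr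
    rwa [image_iUnion] at this

/-- A countable nonempty family is enumerated by `ℕ`. -/
lemma BOm_nonempty {T : Type*} [MeasurableSpace T] {𝒰 : Set (Set T)} (h : 𝒰 ∈ BOm T) :
    𝒰.Nonempty := by
  obtain ⟨U, hU, _⟩ := h.2.2.2.2 ∅ finite_empty
  exact ⟨U, hU⟩

section core

variable {I : Type} [LinearOrder I] [WellFoundedLT I]

lemma S1_Xset (hcov : CovM) (hI : ∀ i : I, Sm (Iio i)) {H : I → ℕ → ℕ}
    {W : I → ℕ → ℕ → {s : Set P // MeasurableSet s}} (hWs : Function.Surjective W)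
    {f : I → P × P} (hf : ∀ i, Req H (fun i n m => (W i n m).1) i f (f i)) :
    S1 (BOm (Xset f)) (BOm (Xset f)) := by
  classical
  intro 𝒰 h𝒰
  have hen : ∀ n, ∃ u : ℕ → Set (Xset f), 𝒰 n = range u := fun n =>
    (h𝒰 n).1.exists_eq_range (BOm_nonempty (h𝒰 n))
  choose u hu using hen
  have hmeas : ∀ n m, ∃ B : {s : Set P // MeasurableSet s}, Subtype.val ⁻¹' B.1 = u n m := by
    intro n m
    have : u n m ∈ 𝒰 n := by rw [hu n]; exact ⟨m, rfl⟩
    obtain ⟨B, hB, h⟩ := (h𝒰 n).2.1 _ this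
    exact ⟨⟨B, hB⟩, h⟩
  choose B hB using hmeas
  obtain ⟨γ, hγ⟩ := hWs B
  have hom : ∀ n, ∀ F : Set P, F.Finite → F ⊆ Xset f →
      ∃ m, F ⊆ (fun i n m => (W i n m).1) γ n m := by
    intro n F hF hFX
    obtain ⟨U, hU, hFU⟩ := (h𝒰 n).2.2.2.2 (Subtype.val ⁻¹' F)
      (hF.preimage Subtype.val_injective.injOn)
    rw [hu n] at hU
    obtain ⟨m, rfl⟩ := hU
    refine ⟨m, fun p hp => ?_⟩
    have h1 : (⟨p, hFX hp⟩ : Xset f) ∈ u n m := hFU hp
    rw [← hB n m] at h1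
    show p ∈ (W γ n m).1
    rw [hγ]
    exact h1
  obtain ⟨g, hg⟩ := select hcov hI hf γ hom
  refine ⟨fun n => u n (g n), fun n => by rw [hu n]; exact ⟨g n, rfl⟩, ?_⟩
  have hω : ∀ F : Set (Xset f), F.Finite → ∃ n, F ⊆ u n (g n) := by
    intro F hF
    obtain ⟨n, hn⟩ := hg (Subtype.val '' F) (hF.image _) (by
      rintro _ ⟨p, _, rfl⟩; exact p.2)
    refine ⟨n, fun p hp => ?_⟩
    rw [← hB n (g n)]
    have h1 : p.1 ∈ (W γ n (g n)).1 := hn ⟨p, hp, rfl⟩
    rw [hγ] at h1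
    exact h1
  refine ⟨countable_range _, ?_, ?_, ?_, ?_⟩
  · rintro _ ⟨n, rfl⟩
    exact (h𝒰 n).2.1 _ (by rw [hu n]; exact ⟨g n, rfl⟩)
  · rw [eq_univ_iff_forall]
    intro p
    obtain ⟨n, hn⟩ := hω {p} (finite_singleton p)
    exact ⟨_, ⟨n, rfl⟩, hn rfl⟩
  · rintro ⟨n, hn⟩
    apply (h𝒰 n).2.2.2.1
    rw [← hn, hu n]
    exact ⟨g n, rfl⟩
  · intro F hF
    obtain ⟨n, hn⟩ := hω F hF
    exact ⟨_, ⟨n, rfl⟩, hn⟩

lemma not_Sfin_Yset {H : I → ℕ → ℕ} (hHs : Function.Surjective H)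
    {W : I → ℕ → ℕ → Set P} {f : I → P × P} (hf : ∀ i, Req H W i f (f i)) :
    ¬ Sfin (BOm (Yset f)) (BOm (Yset f)) := by
  classical
  intro hS
  let U : ℕ → ℕ → Set (Yset f) := fun n m => {y | y.1 (n, m) = true}
  -- a pair that is disjoint below `h`
  have hpair : ∀ h : ℕ → ℕ, ∃ y y' : Yset f, ∀ n m, m ≤ h n → ¬ (y ∈ U n m ∧ y' ∈ U n m) := by
    intro h
    obtain ⟨β, hβ⟩ := hHs h
    refine ⟨⟨(f β).1, β, Or.inl rfl⟩, ⟨(f β).2, β, Or.inr rfl⟩, ?_⟩
    intro n m hm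
    have := (hf β).1
    rw [hβ] at this
    exact this n m hm
  have hU : ∀ n, range (U n) ∈ BOm (Yset f) := by
    intro n
    have hω : ∀ F : Set (Yset f), F.Finite → ∃ m, F ⊆ U n m := by
      intro F hF
      -- indices
      have key : ∃ A : Finset I, ∀ p ∈ F, ∃ β ∈ A, p.1 = (f β).1 ∨ p.1 = (f β).2 := by
        induction F, hF using Set.Finite.induction_on with
        | empty => exact ⟨∅, by simp⟩
        | @insert p F _ _ ih =>
          obtain ⟨A, hA⟩ := ih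
          obtain ⟨β, hβ⟩ := p.2
          refine ⟨insert β A, fun q hq => ?_⟩
          rcases hq with rfl | hq
          · exact ⟨β, Finset.mem_insert_self _ _, hβ⟩
          · obtain ⟨β', h1, h2⟩ := hA q hq
            exact ⟨β', Finset.mem_insert_of_mem h1, h2⟩
      obtain ⟨A, hA⟩ := key
      obtain ⟨m, hm⟩ := (row_infinite hf n A).nonempty
      refine ⟨m, fun p hp => ?_⟩
      obtain ⟨β, hβ, h | h⟩ := hA p hp
      · show p.1 (n, m) = true
        rw [h]; exact (hm β hβ).1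
      · show p.1 (n, m) = true
        rw [h]; exact (hm β hβ).2
    refine ⟨countable_range _, ?_, ?_, ?_, ?_⟩
    · rintro _ ⟨m, rfl⟩
      have hm : Measurable fun y : Yset f => y.1 (n, m) :=
        (measurable_pi_apply (n, m)).comp measurable_subtype_coe
      exact hm (measurableSet_singleton true)
    · rw [eq_univ_iff_forall]
      intro p
      obtain ⟨m, hm⟩ := hω {p} (finite_singleton p)
      exact ⟨_, ⟨m, rfl⟩, hm rfl⟩
    · rintro ⟨m, hm⟩
      obtain ⟨y, y', hyy⟩ := hpair (fun _ => m)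
      exact hyy n m le_rfl ⟨by rw [hm]; trivial, by rw [hm]; trivial⟩
    · intro F hF
      obtain ⟨m, hm⟩ := hω F hF
      exact ⟨_, ⟨m, rfl⟩, hm⟩
  obtain ⟨ℱ, hℱ, hr⟩ := hS (fun n => range (U n)) hU
  have hb : ∀ n, ∃ b : ℕ, ∀ V ∈ ℱ n, ∃ m ≤ b, U n m = V := by
    intro n
    have hfin := (hℱ n).2
    have hsub := (hℱ n).1
    have h1 : ∀ V : Set (Yset f), ∃ m, V ∈ ℱ n → U n m = V := by
      intro V
      by_cases hV : V ∈ ℱ n
      · obtain ⟨m, hm⟩ := hsub hV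
        exact ⟨m, fun _ => hm⟩
      · exact ⟨0, fun h => absurd h hV⟩
    choose r hr using h1
    obtain ⟨b, hb⟩ := (hfin.image r).bddAbove
    exact ⟨b, fun V hV => ⟨r V, hb ⟨V, hV, rfl⟩, hr V hV⟩⟩
  choose h hh using hb
  obtain ⟨y, y', hyy⟩ := hpair h
  obtain ⟨V, hV, hFV⟩ := hr.2.2.2.2 {y, y'} (by simp)
  rw [mem_iUnion] at hV
  obtain ⟨n, hn⟩ := hV
  obtain ⟨m, hm, rfl⟩ := hh n V hn
  exact hyy n m hm ⟨hFV (by simp), hFV (by simp)⟩

end core

lemma exists_surj {I T : Type} [Nonempty T] (h : Cardinal.mk T ≤ Cardinal.mk I) :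
    ∃ F : I → T, Function.Surjective F := by
  obtain ⟨e⟩ := h
  exact ⟨Function.invFun e, Function.invFun_surjective e.injective⟩

lemma card_borel : Cardinal.mk {s : Set P // MeasurableSet s} ≤ Cardinal.continuum := by
  obtain ⟨b, hb, h⟩ := MeasurableSpace.CountablyGenerated.isCountablyGenerated (α := P)
  have h1 : Cardinal.mk b ≤ Cardinal.continuum :=
    (Cardinal.mk_le_aleph0_iff.mpr hb.to_subtype).trans Cardinal.aleph0_le_continuum
  have h2 := MeasurableSpace.cardinal_measurableSet_le_continuum h1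
  rw [← h] at h2
  exact h2

/-- **Main theorem.** -/
theorem main (hcov : CovM) :
    ∃ X Y : Set ℝ, Y ⊆ X ∧ S1 (BorelOmegaCovers X) (BorelOmegaCovers X) ∧
      ¬ Sfin (BorelOmegaCovers Y) (BorelOmegaCovers Y) := by
  classical
  let I : Type := (Cardinal.continuum.{0}).ord.ToType
  have hcard : Cardinal.mk I = Cardinal.continuum := Cardinal.mk_ord_toType _
  have hI : ∀ i : I, Sm (Iio i) := by
    intro i
    have h := Cardinal.mk_Iio_lt i (by simp [I])
    rwa [hcard] at h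
  have hPc : Cardinal.mk (ℕ → ℕ) ≤ Cardinal.mk I := by
    rw [hcard]; simp
  obtain ⟨H, hH⟩ := exists_surj hPc
  have hWc : Cardinal.mk (ℕ → ℕ → {s : Set P // MeasurableSet s}) ≤ Cardinal.mk I := by
    rw [hcard]
    have h1 : Cardinal.mk (ℕ → ℕ → {s : Set P // MeasurableSet s}) =
        (Cardinal.mk {s : Set P // MeasurableSet s} ^ Cardinal.aleph0) ^ Cardinal.aleph0 := by
      simp
    rw [h1]
    calc (Cardinal.mk {s : Set P // MeasurableSet s} ^ Cardinal.aleph0) ^ Cardinal.aleph0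
        ≤ (Cardinal.continuum ^ Cardinal.aleph0) ^ Cardinal.aleph0 :=
          Cardinal.power_le_power_right (Cardinal.power_le_power_right card_borel)
      _ = Cardinal.continuum := by simp
  have : Nonempty {s : Set P // MeasurableSet s} := ⟨⟨∅, MeasurableSet.empty⟩⟩
  obtain ⟨W, hW⟩ := exists_surj hWc
  obtain ⟨f, hf⟩ := exists_points hcov hI H (fun i n m => (W i n m).1) (fun i n m => (W i n m).2)
  have hX := S1_Xset hcov hI hW hf
  have hY := not_Sfin_Yset hH hf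
  have hunc : ¬ Countable P := by
    have h2 : Cardinal.mk P = Cardinal.continuum := by simp
    intro hc
    have h1 : Cardinal.mk P ≤ Cardinal.aleph0 := Cardinal.mk_le_aleph0_iff.mpr hc
    rw [h2] at h1
    exact absurd h1 (not_le.mpr Cardinal.aleph0_lt_continuum)
  have huncR : ¬ Countable ℝ := by
    intro hc
    have h1 : Cardinal.mk ℝ ≤ Cardinal.aleph0 := Cardinal.mk_le_aleph0_iff.mpr hc
    rw [Cardinal.mk_real] at h1
    exact absurd h1 (not_le.mpr Cardinal.aleph0_lt_continuum)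
  let e : P ≃ᵐ ℝ := PolishSpace.measurableEquivOfNotCountable hunc huncR
  have hX' : S1 (BorelOmegaCovers (e '' Xset f)) (BorelOmegaCovers (e '' Xset f)) := by
    rw [borelOmegaCovers_eq]
    exact S1_transfer (e.measurableEmbedding.equivImage (Xset f)) hX
  have hY' : ¬ Sfin (BorelOmegaCovers (e '' Yset f)) (BorelOmegaCovers (e '' Yset f)) := by
    rw [borelOmegaCovers_eq]
    intro h
    exact hY (Sfin_transfer (e.measurableEmbedding.equivImage (Yset f)).symm h)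
  exact ⟨e '' Xset f, e '' Yset f, image_mono (Yset_subset f), hX', hY'⟩

lemma Sfin_of_S1 {T : Type} {𝒜 : Set (Set (Set T))} (h : S1 𝒜 𝒜) : Sfin 𝒜 𝒜 := by
  intro 𝒰 h𝒰
  obtain ⟨U, hU, hr⟩ := h 𝒰 h𝒰
  refine ⟨fun n => {U n}, fun n => ⟨by simpa using hU n, finite_singleton _⟩, ?_⟩
  rwa [iUnion_singleton_eq_range]

/-- A cover of the Baire space by meager sets is uncountable. -/
lemma aleph_one_le_of_cover {𝒩 : Set (Set (ℕ → ℕ))} (hN : ∀ N ∈ 𝒩, IsMeagre N)
    (hU : ⋃₀ 𝒩 = univ) : Cardinal.aleph 1 ≤ Cardinal.mk 𝒩 := by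
  by_contra hcon
  rw [not_le, Cardinal.lt_aleph_one_iff, Cardinal.le_aleph0_iff_set_countable] at hcon
  have h1 : IsMeagre (⋃₀ 𝒩) := by
    rw [sUnion_eq_biUnion]
    exact isMeagre_biUnion hcon hN
  rw [hU] at h1
  have h2 : (univ : Set (ℕ → ℕ))ᶜ ∈ residual (ℕ → ℕ) := h1
  rw [compl_univ] at h2
  obtain ⟨x, hx⟩ := (dense_of_mem_residual h2).nonempty
  exact hx

end Pool.Agent.Helper62_Omega
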